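import Pool.Agent.Helper39.Gold.Main

/-! # MP_845b8e_lc: Goldstern's principle and projective well-orders

`GP n` is Goldstern's principle for `Σ¹ₙ`, `IsSig n A` says that `A` is boldface `Σ¹ₙ`, `addN` is the
additivity of the ideal of Lebesgue null sets, and `MA` is Martin's axiom.

Under `MA` and the negation of `CH`, if some well-order of `ω^ω` with initial segments of size less
than `𝔠` is `Σ¹ₘ`, then there is `n` with `2 ≤ n ≤ m` such that `GP(Σ¹ₙ)` holds and `GP(Σ¹ₙ₊₁)`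
fails. By a theorem of Harrington (1977), not formalized here, such a well-order is consistent
relative to `ZFC` alone, with `m = 3`. -/

namespace Pool.Agent.Results.MP_845b8e_lc.ProjectiveWellOrders

open Pool.Agent.Helper39.Gold MeasureTheory Cardinal Set Filter

theorem result :
    -- the separation under Martin's axiom and a projective well-order
    (MA ∨ addN = 𝔠 → (ℵ₁ : Cardinal.{0}) < 𝔠 →
      ∀ (m : ℕ) (r : (ℕ → ℕ) → (ℕ → ℕ) → Prop), IsWellOrder (ℕ → ℕ) r →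
      IsSig m {p : (ℕ → ℕ) × (ℕ → ℕ) | r p.1 p.2} → (∀ y, #{z | r z y} < 𝔠) →
      (∃ n, 2 ≤ n ∧ n ≤ m ∧ GP n ∧ ¬ GP (n + 1)) ∧
      (Good m r → ∃ n, 2 ≤ n ∧ n < m ∧ GP n ∧ ¬ GP (n + 1))) ∧
    -- the general criterion
    (∀ (k m : ℕ) (Y : Type) [TopologicalSpace Y] [PolishSpace Y] [MeasurableSpace Y] [BorelSpace Y]
      (μ : Measure Y) [IsProbabilityMeasure μ] (R : Set (Y × (ℕ → ℕ))),
      GP k ∨ (k = 2 ∧ ℵ₁ < addN) → IsSig m R →
      (∀ y, ∃ x : ℕ → ℕ, ∀ z, (y, z) ∈ R → ∀ᶠ i in atTop, z i ≤ x i) →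
      (∀ x : ℕ → ℕ, μ {y | ∀ z, (y, z) ∈ R → ∀ᶠ i in atTop, z i ≤ x i} = 0) →
      ∃ n, k ≤ n ∧ n ≤ m ∧ GP n ∧ ¬ GP (n + 1)) := by
  constructor
  · intro hMA hc m r hr hm hcard
    have hadd : addN = 𝔠 := hMA.elim addN_eq_of_ma id
    have hs : SmallSegments r := small_of_card r fun y => by rw [hadd]; exact hcard y
    have hGP2 : GP 2 := gp_two_of_addN (by rw [hadd]; exact hc)
    refine ⟨?_, fun hg => separation hGP2 (not_gp_good r (pos_of_isSig hm) hg hs) gp_of_succ⟩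
    obtain ⟨n, ha, hb, hc, hd⟩ := separation hGP2 (not_gp_succ r hm hs) gp_of_succ
    exact ⟨n, ha, by omega, hc, hd⟩
  · intro k m Y _ _ _ _ μ _ R hk hR hb h0
    have hGPk : GP k := by
      rcases hk with hk | ⟨rfl, hk⟩
      · exact hk
      · exact gp_two_of_addN hk
    obtain ⟨n, ha, hb, hc, hd⟩ := separation hGPk (not_gp_of_rel μ R hR hb h0) gp_of_succ
    exact ⟨n, ha, by omega, hc, hd⟩

end Pool.Agent.Results.MP_845b8e_lc.ProjectiveWellOrders
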