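import Pool.Agent.Helper39.Gold.Cov2

/-! # MP_845b8e_lc: a necessary condition for Goldstern's principle at each projective level

If `GP(Σ¹ₙ)` holds, then every `Σ¹ₙ` subset of `ω^ω` with Rothberger's property (for example, every
`Σ¹ₙ` set of size less than `cov(ℳ)`) is eventually bounded, and the union of the null sets coded by
its members is null if they are codes of `G_δ` null sets. For all sets: `GP(all)` implies
`cov(ℳ) ≤ add(𝒩)`. Consequences for the separation of `GP(Σ¹ₙ)` and `GP(Σ¹ₙ₊₁)` by projective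
well-orders when `cov(ℳ) = 𝔠` is regular. -/

namespace Pool.Agent.Results.MP_845b8e_lc.RothbergerCodes

open Pool.Agent.Helper39.Gold MeasureTheory Cardinal Set Filter

theorem result :
    -- the necessary condition at level `n`
    (∀ (n : ℕ) (C : Set (ℕ → ℕ)), GP n → IsSig n C → (Rothberger C ∨ #C < covM) →
      (∃ x : ℕ → ℕ, ∀ f ∈ C, ∀ᶠ i in atTop, f i ≤ x i) ∧
      ∀ (Y : Type) [TopologicalSpace Y] [PolishSpace Y] [MeasurableSpace Y] [BorelSpace Y]
        (μ : Measure Y) [IsProbabilityMeasure μ] (V : ℕ → Set Y), (∀ i, IsOpen (V i)) →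
        (∀ c ∈ C, NullCode μ V c) → μ (⋃ c ∈ C, Gd V c) = 0) ∧
    -- the class of all sets
    (GPall → covM ≤ addN) ∧
    -- projective well-orders
    (∀ (k m : ℕ) (r : (ℕ → ℕ) → (ℕ → ℕ) → Prop), GP k → covM = 𝔠 →
      Cardinal.IsRegular (𝔠 : Cardinal.{0}) → IsWellOrder (ℕ → ℕ) r →
      IsSig m {p : (ℕ → ℕ) × (ℕ → ℕ) | r p.1 p.2} → (∀ y, #{z | r z y} < 𝔠) →
      (∃ n, k ≤ n ∧ n ≤ m ∧ GP n ∧ ¬ GP (n + 1)) ∧
      (addN < 𝔠 ∨ Good m r → ∃ n, k ≤ n ∧ n < m ∧ GP n ∧ ¬ GP (n + 1))) := by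
  refine ⟨fun n C hGP hC hR => ?_, covM_le_addN,
    fun k m r hk hcov hreg hwo hr hcard => separation_of_covM r hk hcov hreg hr hcard⟩
  have hR' : Rothberger C := hR.elim id rothberger_of_card
  exact ⟨bdd_of_gp hGP hC hR', fun Y _ _ _ _ μ _ V hV hn => null_of_gp hGP μ V hV C hC hR' hn⟩

end Pool.Agent.Results.MP_845b8e_lc.RothbergerCodes
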